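import Pool.Agent.Helper8_AEU.TieW
import Pool.Agent.Helper29_AEU.Chart
import Pool.Agent.Helper62_AEU.Stmt

/-!
TieV (squad AEU, Part IV): almost every convex polygon, in vertex coordinates, has no ties.
-/

namespace Pool.Agent.AEU.H8

open MeasureTheory Complex Filter Topology ProbabilityTheory Pool.Agent.H62T
open Pool.Agent.H62T.H85 (nrm off)
open scoped ENNReal NNReal

variable {n : ℕ}

/-- no ties, for the set of the sides -/
theorem noTie_sides {u : Fin n → ℂ} {H : Fin n → ℝ} {ω : Sp} (h : NoTie u H ω) :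
    AEU.NoTie (sides u H) (hs ω) := by
  intro σ x _ T hT hc
  by_contra hcon
  push Not at hcon
  obtain ⟨a, b, c, d, hab, hac, had, hbc, hbd, hcd, rfl⟩ := Finset.card_eq_four.1 hc
  have key : ∀ s ∈ ({a, b, c, d} : Finset HP), ∃ i : Fin n, (u i, H i) = s ∧
      ip (u i) x = H i - σ * hs ω (u i) := by
    intro s hs'
    have h1 := hT hs'
    unfold sides at h1
    rw [Finset.mem_image] at h1
    obtain ⟨i, -, hi⟩ := h1
    refine ⟨i, hi, ?_⟩
    have h2 := hcon s hs'
    rw [← hi] at h2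
    simp only at h2
    linarith
  obtain ⟨i, hi, hi2⟩ := key a (by simp)
  obtain ⟨j, hj, hj2⟩ := key b (by simp)
  obtain ⟨k, hk, hk2⟩ := key c (by simp)
  obtain ⟨l, hl, hl2⟩ := key d (by simp)
  refine h.no_point (i := i) (j := j) (k := k) (l := l) ⟨?_, ?_, ?_, ?_, ?_, ?_⟩ σ x hi2 hj2 hk2
    hl2
  · rintro rfl; exact hab (hi.symm.trans hj)
  · rintro rfl; exact hac (hi.symm.trans hk)
  · rintro rfl; exact had (hi.symm.trans hl)
  · rintro rfl; exact hbc (hj.symm.trans hk)
  · rintro rfl; exact hbd (hj.symm.trans hl)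
  · rintro rfl; exact hcd (hk.symm.trans hl)

/-- shift of one angle -/
noncomputable def LB (j : Fin n) : ℝ →ₗ[ℝ] (Fin n → ℝ) where
  toFun x := fun k => if k = j then x else 0
  map_add' x y := by ext k; simp only [Pi.add_apply]; split_ifs <;> simp
  map_smul' c x := by ext k; simp

theorem ae_npA (i j : Fin n) (hij : i ≠ j) :
    ∀ᵐ θ : Fin n → ℝ, Real.sin (θ j - θ i) ≠ 0 := by
  have hm : MeasurableSet {θ : Fin n → ℝ | Real.sin (θ j - θ i) ≠ 0} := by
    have h1 : Measurable fun θ : Fin n → ℝ => Real.sin (θ j - θ i) :=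
      Real.measurable_sin.comp ((measurable_pi_apply j).sub (measurable_pi_apply i))
    exact (measurableSet_eq_fun h1 measurable_const).compl
  refine ae_mem_of_ae_add_linearMap_mem (LB j) volume volume hm fun y => ?_
  filter_upwards [sin_zero_null (y j - y i)] with x hx
  have h1 : (y + LB j x) j = y j + x := by
    show y j + (if j = j then x else 0) = _
    rw [if_pos rfl]
  have h2 : (y + LB j x) i = y i := by
    show y i + (if i = j then x else 0) = _
    rw [if_neg hij, add_zero]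
  show Real.sin ((y + LB j x) j - (y + LB j x) i) ≠ 0
  rw [h1, h2]
  have h3 : y j + x - y i = y j - y i + x := by ring
  rw [h3]
  exact hx

/-- in the coordinates angles, support numbers -/
theorem tieP : ∀ᵐ p : (Fin n → ℝ) × (Fin n → ℝ), ∀ᵐ ω ∂PP, NoTie (H29.un p.1) p.2 ω := by
  have hm : MeasurableSet {p : (Fin n → ℝ) × (Fin n → ℝ) |
      ∀ᵐ ω ∂PP, NoTie (H29.un p.1) p.2 ω} := by
    refine measurableSet_tie (fun i => ?_) fun i => ?_
    · unfold H29.un
      fun_prop
    · fun_prop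
  have hnp : ∀ᵐ θ : Fin n → ℝ, ∀ i j, i ≠ j → Real.sin (θ j - θ i) ≠ 0 := by
    rw [ae_all_iff]; intro i
    rw [ae_all_iff]; intro j
    by_cases hij : i = j
    · filter_upwards with w h
      exact absurd hij h
    · filter_upwards [ae_npA i j hij] with w hw _
      exact hw
  refine (Measure.ae_prod_iff_ae_ae (p := fun p => ∀ᵐ ω ∂PP, NoTie (H29.un p.1) p.2 ω) hm).2 ?_
  filter_upwards [hnp] with θ hθ
  refine tie _ fun i j hij => ?_
  have h1 : dt (H29.un θ i) (H29.un θ j) = Real.sin (θ j - θ i) := by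
    unfold dt H29.un
    rw [Complex.exp_ofReal_mul_I_re, Complex.exp_ofReal_mul_I_im, Complex.exp_ofReal_mul_I_re,
      Complex.exp_ofReal_mul_I_im, Real.sin_sub]
    ring
  rw [h1]
  exact hθ i j hij

/-- TieV: almost every convex polygon has no ties -/
theorem tieV [NeZero n] (hn : 3 ≤ n) : ∀ᵐ v : Fin n → ℂ, H62T.H85.CC v →
    ∀ᵐ ω ∂PP, AEU.NoTie (sides (nrm v) (off v)) (hs ω) := by
  refine H29.ae_chart hn (G := fun u H => ∀ᵐ ω ∂PP, AEU.NoTie (sides u H) (hs ω)) ?_
  filter_upwards [tieP (n := n)] with p hp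
  filter_upwards [hp] with ω hω
  exact noTie_sides hω

end Pool.Agent.AEU.H8
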