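import Pool.Agent.Helper41_TRI.Mom

/-!
TIE (squad AEU, Part I): for almost every choice of the support numbers of the sides of a polygon,
almost surely no scaled copy of the Brownian loop touches four sides.
-/

namespace Pool.Agent.AEU.H8

open MeasureTheory Complex Filter Topology ProbabilityTheory Pool.Agent.H62T
open scoped ENNReal NNReal

variable {n : ℕ}

/-- vanishes if the lines `ip (u m) x = b m`, `m = i, j, k`, have a common point -/
def D3 (u : Fin n → ℂ) (b : Fin n → ℝ) (i j k : Fin n) : ℝ :=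
  dt (u j) (u k) * b i + dt (u k) (u i) * b j + dt (u i) (u j) * b k

theorem D3_ip (u : Fin n → ℂ) (x : ℂ) (i j k : Fin n) :
    D3 u (fun m => ip (u m) x) i j k = 0 := by
  unfold D3 dt ip
  ring

theorem D3_eq_zero {u : Fin n → ℂ} {b : Fin n → ℝ} {x : ℂ} {i j k : Fin n}
    (hi : ip (u i) x = b i) (hj : ip (u j) x = b j) (hk : ip (u k) x = b k) :
    D3 u b i j k = 0 := by
  rw [← D3_ip u x i j k]
  unfold D3
  simp only [hi, hj, hk]

theorem D3_sub (u : Fin n → ℂ) (b c : Fin n → ℝ) (s : ℝ) (i j k : Fin n) :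
    D3 u (fun m => b m - s * c m) i j k = D3 u b i j k - s * D3 u c i j k := by
  unfold D3
  ring

/-- the support numbers of the loop -/
noncomputable def hu (u : Fin n → ℂ) (ω : Sp) (m : Fin n) : ℝ := hs ω (u m)

/-- the lines `i, j, k, l`, moved inwards by `s` times the support numbers of the loop, have a
common point for some `s` -/
def BadE (u : Fin n → ℂ) (H : Fin n → ℝ) (i j k l : Fin n) (ω : Sp) : Prop :=
  ∃ s : ℝ, D3 u H i j k = s * D3 u (hu u ω) i j k ∧ D3 u H i j l = s * D3 u (hu u ω) i j l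

/-- four different numbers -/
def Diff4 (i j k l : Fin n) : Prop := i ≠ j ∧ i ≠ k ∧ i ≠ l ∧ j ≠ k ∧ j ≠ l ∧ k ≠ l

instance (i j k l : Fin n) : Decidable (Diff4 i j k l) := by unfold Diff4; infer_instance

/-- there are no ties -/
def NoTie (u : Fin n → ℂ) (H : Fin n → ℝ) (ω : Sp) : Prop :=
  ∀ i j k l : Fin n, Diff4 i j k l → ¬ BadE u H i j k l ω

/-- the geometric consequence -/
theorem NoTie.no_point {u : Fin n → ℂ} {H : Fin n → ℝ} {ω : Sp} (h : NoTie u H ω)
    {i j k l : Fin n} (hd : Diff4 i j k l) (s : ℝ) (x : ℂ)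
    (hi : ip (u i) x = H i - s * hs ω (u i)) (hj : ip (u j) x = H j - s * hs ω (u j))
    (hk : ip (u k) x = H k - s * hs ω (u k)) (hl : ip (u l) x = H l - s * hs ω (u l)) :
    False := by
  refine h i j k l hd ⟨s, ?_, ?_⟩
  · have h1 := D3_eq_zero (b := fun m => H m - s * hu u ω m) hi hj hk
    rw [D3_sub] at h1
    linarith
  · have h1 := D3_eq_zero (b := fun m => H m - s * hu u ω m) hi hj hl
    rw [D3_sub] at h1
    linarith

theorem badE_iff (A B a b : ℝ) : (∃ s : ℝ, A = s * a ∧ B = s * b) ↔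
    (A * b = B * a ∧ (a ≠ 0 ∨ b ≠ 0)) ∨ (A = 0 ∧ B = 0) := by
  constructor
  · rintro ⟨s, rfl, rfl⟩
    by_cases ha : a = 0
    · by_cases hb : b = 0
      · right
        rw [ha, hb]
        simp
      · left
        exact ⟨by ring, Or.inr hb⟩
    · left
      exact ⟨by ring, Or.inl ha⟩
  · rintro (⟨h1, h2 | h2⟩ | ⟨h1, h2⟩)
    · refine ⟨A / a, by field_simp, ?_⟩
      field_simp
      linarith
    · refine ⟨B / b, ?_, by field_simp⟩
      field_simp
      linarith
    · exact ⟨0, by rw [h1]; ring, by rw [h2]; ring⟩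

/-! ### measurability -/

theorem ip_meas2 {α : Type*} [MeasurableSpace α] {f g : α → ℂ} (hf : Measurable f)
    (hg : Measurable g) : Measurable fun x => ip (f x) (g x) := by
  unfold ip
  exact ((Complex.measurable_re.comp hf).mul (Complex.measurable_re.comp hg)).add
    ((Complex.measurable_im.comp hf).mul (Complex.measurable_im.comp hg))

theorem dt_meas2 {α : Type*} [MeasurableSpace α] {f g : α → ℂ} (hf : Measurable f)
    (hg : Measurable g) : Measurable fun x => dt (f x) (g x) := by
  unfold dt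
  exact ((Complex.measurable_re.comp hf).mul (Complex.measurable_im.comp hg)).sub
    ((Complex.measurable_im.comp hf).mul (Complex.measurable_re.comp hg))

theorem hs_meas2 {α : Type*} [MeasurableSpace α] {f : α → Sp} {g : α → ℂ} (hf : Measurable f)
    (hg : Measurable g) : Measurable fun x => hs (f x) (g x) := by
  unfold hs
  refine Measurable.iSup fun q => ?_
  split_ifs with h
  · exact ip_meas2 hg ((H41.loop_meas q.1 q.2).comp hf)
  · exact measurable_const

theorem D3_meas {α : Type*} [MeasurableSpace α] {U : α → Fin n → ℂ} {b : α → Fin n → ℝ}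
    (hU : ∀ i, Measurable fun x => U x i) (hb : ∀ i, Measurable fun x => b x i) (i j k : Fin n) :
    Measurable fun x => D3 (U x) (b x) i j k := by
  unfold D3
  exact (((dt_meas2 (hU j) (hU k)).mul (hb i)).add ((dt_meas2 (hU k) (hU i)).mul (hb j))).add
    ((dt_meas2 (hU i) (hU j)).mul (hb k))

/-- joint measurability of the bad event -/
theorem measurableSet_badE {α : Type*} [MeasurableSpace α] {U : α → Fin n → ℂ}
    {H : α → Fin n → ℝ} {W : α → Sp} (hU : ∀ i, Measurable fun x => U x i)
    (hH : ∀ i, Measurable fun x => H x i) (hW : Measurable W) (i j k l : Fin n) :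
    MeasurableSet {x | BadE (U x) (H x) i j k l (W x)} := by
  have hhu : ∀ i, Measurable fun x => hu (U x) (W x) i := fun i => hs_meas2 hW (hU i)
  have m1 := D3_meas hU hH i j k
  have m2 := D3_meas hU hH i j l
  have m3 := D3_meas hU hhu i j k
  have m4 := D3_meas hU hhu i j l
  have e : {x | BadE (U x) (H x) i j k l (W x)} =
      ({x | D3 (U x) (H x) i j k * D3 (U x) (hu (U x) (W x)) i j l =
          D3 (U x) (H x) i j l * D3 (U x) (hu (U x) (W x)) i j k} ∩
        ({x | D3 (U x) (hu (U x) (W x)) i j k = 0}ᶜ ∪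
          {x | D3 (U x) (hu (U x) (W x)) i j l = 0}ᶜ)) ∪
      ({x | D3 (U x) (H x) i j k = 0} ∩ {x | D3 (U x) (H x) i j l = 0}) := by
    ext x
    exact badE_iff _ _ _ _
  rw [e]
  refine MeasurableSet.union (MeasurableSet.inter ?_ (MeasurableSet.union ?_ ?_))
    (MeasurableSet.inter ?_ ?_)
  · exact measurableSet_eq_fun (m1.mul m4) (m2.mul m3)
  · exact (measurableSet_eq_fun m3 measurable_const).compl
  · exact (measurableSet_eq_fun m4 measurable_const).compl
  · exact measurableSet_eq_fun m1 measurable_const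
  · exact measurableSet_eq_fun m2 measurable_const

theorem measurableSet_noTie {α : Type*} [MeasurableSpace α] {U : α → Fin n → ℂ}
    {H : α → Fin n → ℝ} {W : α → Sp} (hU : ∀ i, Measurable fun x => U x i)
    (hH : ∀ i, Measurable fun x => H x i) (hW : Measurable W) :
    MeasurableSet {x | NoTie (U x) (H x) (W x)} := by
  have e : {x | NoTie (U x) (H x) (W x)} = ⋂ (i : Fin n) (j : Fin n) (k : Fin n) (l : Fin n)
      (_ : Diff4 i j k l), {x | BadE (U x) (H x) i j k l (W x)}ᶜ := by
    ext x
    simp [NoTie]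
  rw [e]
  exact MeasurableSet.iInter fun i => MeasurableSet.iInter fun j => MeasurableSet.iInter fun k =>
    MeasurableSet.iInter fun l => MeasurableSet.iInter fun _ =>
      (measurableSet_badE hU hH hW i j k l).compl

/-! ### hyperplanes -/

theorem ae_lin_ne {f : (Fin n → ℝ) →ₗ[ℝ] ℝ} (hf : f ≠ 0) : ∀ᵐ H : Fin n → ℝ, f H ≠ 0 := by
  have h1 : LinearMap.ker f ≠ ⊤ := by
    intro h
    exact hf (LinearMap.ker_eq_top.1 h)
  have h2 := Measure.addHaar_submodule volume (LinearMap.ker f) h1
  rw [ae_iff]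
  refine measure_mono_null ?_ h2
  intro z hz
  simpa using hz

/-- the linear functional `D3` -/
def D3L (u : Fin n → ℂ) (i j k : Fin n) : (Fin n → ℝ) →ₗ[ℝ] ℝ where
  toFun H := D3 u H i j k
  map_add' H H' := by unfold D3; simp only [Pi.add_apply]; ring
  map_smul' c H := by unfold D3; simp only [Pi.smul_apply, smul_eq_mul, RingHom.id_apply]; ring

theorem D3_single {u : Fin n → ℂ} {i j k m : Fin n} (h1 : i ≠ m) (h2 : j ≠ m) :
    D3 u (Pi.single m 1) i j k = if k = m then dt (u i) (u j) else 0 := by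
  unfold D3
  rw [Pi.single_eq_of_ne h1, Pi.single_eq_of_ne h2]
  split_ifs with h
  · rw [h, Pi.single_eq_same]; ring
  · rw [Pi.single_eq_of_ne h]; ring

theorem D3L_ne {u : Fin n → ℂ} {i j k : Fin n} (hij : dt (u i) (u j) ≠ 0) (hik : i ≠ k)
    (hjk : j ≠ k) : D3L u i j k ≠ 0 := by
  intro h
  have h1 : D3L u i j k (Pi.single k 1) = 0 := by rw [h]; rfl
  have h2 : D3 u (Pi.single k 1) i j k = 0 := h1
  rw [D3_single hik hjk, if_pos rfl] at h2
  exact hij h2

/-- for a fixed loop -/
theorem ae_not_badE {u : Fin n → ℂ} {i j k l : Fin n} (hd : Diff4 i j k l)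
    (hij : dt (u i) (u j) ≠ 0) (ω : Sp) : ∀ᵐ H : Fin n → ℝ, ¬ BadE u H i j k l ω := by
  obtain ⟨-, hik, hil, hjk, hjl, hkl⟩ := hd
  set a := D3 u (hu u ω) i j k with ha
  set b := D3 u (hu u ω) i j l with hb
  have h1 := ae_lin_ne (D3L_ne hij hik hjk)
  have h2 : ∀ᵐ H : Fin n → ℝ, ¬ (D3 u H i j k * b = D3 u H i j l * a ∧ (a ≠ 0 ∨ b ≠ 0)) := by
    by_cases hab : a ≠ 0 ∨ b ≠ 0
    · have hf : (b • D3L u i j k - a • D3L u i j l) ≠ 0 := by
        intro h
        rcases hab with h0 | h0
        · have h3 : (b • D3L u i j k - a • D3L u i j l) (Pi.single l 1) = 0 := by rw [h]; rfl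
          have h4 : b * D3 u (Pi.single l 1) i j k - a * D3 u (Pi.single l 1) i j l = 0 := h3
          rw [D3_single hil hjl, D3_single hil hjl, if_neg hkl, if_pos rfl] at h4
          have h5 : a * dt (u i) (u j) = 0 := by linarith
          exact (mul_ne_zero h0 hij) h5
        · have h3 : (b • D3L u i j k - a • D3L u i j l) (Pi.single k 1) = 0 := by rw [h]; rfl
          have h4 : b * D3 u (Pi.single k 1) i j k - a * D3 u (Pi.single k 1) i j l = 0 := h3
          rw [D3_single hik hjk, D3_single hik hjk, if_pos rfl, if_neg (Ne.symm hkl)] at h4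
          have h5 : b * dt (u i) (u j) = 0 := by linarith
          exact (mul_ne_zero h0 hij) h5
      filter_upwards [ae_lin_ne hf] with H hH h
      apply hH
      have : (b • D3L u i j k - a • D3L u i j l) H =
          b * D3 u H i j k - a * D3 u H i j l := rfl
      rw [this]
      linarith [h.1]
    · filter_upwards with H h
      exact hab h.2
  filter_upwards [h1, h2] with H hH1 hH2 hbad
  rcases (badE_iff _ _ _ _).1 hbad with h | h
  · exact hH2 h
  · exact hH1 h.1

/-- TIE: for almost all support numbers, almost surely there are no ties -/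
theorem tie (u : Fin n → ℂ) (hu : ∀ i j, i ≠ j → dt (u i) (u j) ≠ 0) :
    ∀ᵐ H : Fin n → ℝ, ∀ᵐ ω ∂PP, NoTie u H ω := by
  have hm : MeasurableSet {x : (Fin n → ℝ) × Sp | NoTie u x.1 x.2} :=
    measurableSet_noTie (U := fun _ => u) (H := fun x : (Fin n → ℝ) × Sp => x.1)
      (W := fun x => x.2) (fun i => measurable_const)
      (fun i => (measurable_pi_apply i).comp measurable_fst) measurable_snd
  rw [Measure.ae_ae_comm (p := fun (H : Fin n → ℝ) ω => NoTie u H ω) hm]
  refine Eventually.of_forall fun ω => ?_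
  have h1 : ∀ i j k l : Fin n, ∀ᵐ H : Fin n → ℝ, Diff4 i j k l → ¬ BadE u H i j k l ω := by
    intro i j k l
    by_cases hd : Diff4 i j k l
    · filter_upwards [ae_not_badE hd (hu i j hd.1) ω] with H hH _
      exact hH
    · filter_upwards with H h
      exact absurd h hd
  have h2 : ∀ᵐ H : Fin n → ℝ, ∀ i j k l : Fin n, Diff4 i j k l → ¬ BadE u H i j k l ω := by
    rw [ae_all_iff]; intro i
    rw [ae_all_iff]; intro j
    rw [ae_all_iff]; intro k
    rw [ae_all_iff]; intro l
    exact h1 i j k l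
  exact h2

/-- the set of the parameters without ties is measurable -/
theorem measurableSet_tie {α : Type*} [MeasurableSpace α] {U : α → Fin n → ℂ}
    {H : α → Fin n → ℝ} (hU : ∀ i, Measurable fun x => U x i)
    (hH : ∀ i, Measurable fun x => H x i) :
    MeasurableSet {x | ∀ᵐ ω ∂PP, NoTie (U x) (H x) ω} := by
  have hm : MeasurableSet {p : α × Sp | NoTie (U p.1) (H p.1) p.2}ᶜ :=
    (measurableSet_noTie (U := fun p : α × Sp => U p.1) (H := fun p => H p.1)
      (W := fun p => p.2) (fun i => (hU i).comp measurable_fst)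
      (fun i => (hH i).comp measurable_fst) measurable_snd).compl
  have h1 := measurable_measure_prodMk_left (ν := PP) hm
  have e : {x | ∀ᵐ ω ∂PP, NoTie (U x) (H x) ω} =
      (fun x => PP (Prod.mk x ⁻¹' {p : α × Sp | NoTie (U p.1) (H p.1) p.2}ᶜ)) ⁻¹' {0} := by
    ext x
    rfl
  rw [e]
  exact h1 (measurableSet_singleton 0)

end Pool.Agent.AEU.H8
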