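import Pool.Agent.Helper8_AEU.Tie
import Mathlib.MeasureTheory.Measure.Haar.Disintegration

/-!
TieW (squad AEU, Part IV): ties in the coordinates `w j = θ j + I * H j` of the sides.
-/

namespace Pool.Agent.AEU.H8

open MeasureTheory Complex Filter Topology ProbabilityTheory Pool.Agent.H62T
open scoped ENNReal NNReal

variable {n : ℕ}

/-- unit normals of the sides -/
noncomputable def uw (w : Fin n → ℂ) (j : Fin n) : ℂ := Complex.exp ((w j).re * I)

/-- support numbers of the sides -/
def Hw (w : Fin n → ℂ) (j : Fin n) : ℝ := (w j).im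

theorem uw_norm (w : Fin n → ℂ) (j : Fin n) : ‖uw w j‖ = 1 := Complex.norm_exp_ofReal_mul_I _

theorem dt_uw (w : Fin n → ℂ) (i j : Fin n) :
    dt (uw w i) (uw w j) = Real.sin ((w j).re - (w i).re) := by
  unfold dt uw
  rw [Complex.exp_ofReal_mul_I_re, Complex.exp_ofReal_mul_I_im, Complex.exp_ofReal_mul_I_re,
    Complex.exp_ofReal_mul_I_im, Real.sin_sub]
  ring

/-- nonparallel sides -/
def Np (w : Fin n → ℂ) : Prop := ∀ i j, i ≠ j → dt (uw w i) (uw w j) ≠ 0

theorem measurable_uw (j : Fin n) : Measurable fun w : Fin n → ℂ => uw w j := by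
  unfold uw
  fun_prop

theorem measurable_Hw (j : Fin n) : Measurable fun w : Fin n → ℂ => Hw w j := by
  unfold Hw
  fun_prop

theorem sin_zero_null (c : ℝ) : ∀ᵐ x : ℝ, Real.sin (c + x) ≠ 0 := by
  have h1 : {x : ℝ | ¬ Real.sin (c + x) ≠ 0} ⊆ Set.range fun k : ℤ => k * Real.pi - c := by
    intro x hx
    simp only [ne_eq, not_not, Set.mem_ofPred_eq] at hx
    obtain ⟨k, hk⟩ := Real.sin_eq_zero_iff.1 hx
    exact ⟨k, by simp only []; linarith⟩
  rw [ae_iff]
  exact measure_mono_null h1 ((Set.countable_range _).measure_zero volume)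

theorem measurableSet_dt (i j : Fin n) :
    MeasurableSet {w : Fin n → ℂ | dt (uw w i) (uw w j) ≠ 0} :=
  (measurableSet_eq_fun (dt_meas2 (measurable_uw i) (measurable_uw j)) measurable_const).compl

/-- shift of one angle -/
noncomputable def LA (j : Fin n) : ℝ →ₗ[ℝ] (Fin n → ℂ) where
  toFun x := Pi.single j (x : ℂ)
  map_add' x y := by rw [← Pi.single_add]; push_cast; rfl
  map_smul' c x := by
    rw [← Pi.single_smul]
    simp

theorem ae_dt (i j : Fin n) (hij : i ≠ j) : ∀ᵐ w : Fin n → ℂ, dt (uw w i) (uw w j) ≠ 0 := by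
  refine ae_mem_of_ae_add_linearMap_mem (LA j) volume volume (measurableSet_dt i j) fun y => ?_
  filter_upwards [sin_zero_null ((y j).re - (y i).re)] with x hx
  show dt (uw (y + LA j x) i) (uw (y + LA j x) j) ≠ 0
  have h1 : (y + LA j x) j = y j + x := by
    show y j + (Pi.single j (x : ℂ) : Fin n → ℂ) j = _
    rw [Pi.single_eq_same]
  have h2 : (y + LA j x) i = y i := by
    show y i + (Pi.single j (x : ℂ) : Fin n → ℂ) i = _
    rw [Pi.single_eq_of_ne hij, add_zero]
  rw [dt_uw, h1, h2, Complex.add_re, Complex.ofReal_re]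
  have h3 : (y j).re + x - (y i).re = (y j).re - (y i).re + x := by ring
  rw [h3]
  exact hx

/-- almost all normals are pairwise not parallel -/
theorem ae_Np : ∀ᵐ w : Fin n → ℂ, Np w := by
  have : ∀ᵐ w : Fin n → ℂ, ∀ i j, i ≠ j → dt (uw w i) (uw w j) ≠ 0 := by
    rw [ae_all_iff]; intro i
    rw [ae_all_iff]; intro j
    by_cases hij : i = j
    · filter_upwards with w h
      exact absurd hij h
    · filter_upwards [ae_dt i j hij] with w hw _
      exact hw
  exact this

/-- shift of the support numbers -/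
noncomputable def LH : (Fin n → ℝ) →ₗ[ℝ] (Fin n → ℂ) where
  toFun x := fun j => (x j : ℂ) * I
  map_add' x y := by ext j; simp only [Pi.add_apply]; push_cast; ring
  map_smul' c x := by
    ext j
    simp only [Pi.smul_apply, smul_eq_mul, RingHom.id_apply, Complex.real_smul]
    push_cast
    ring

theorem uw_LH (y : Fin n → ℂ) (x : Fin n → ℝ) : uw (y + LH x) = uw y := by
  funext j
  unfold uw
  have : ((y + LH x) j).re = (y j).re := by
    show (y j + (x j : ℂ) * I).re = _
    simp
  rw [this]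

theorem Hw_LH (y : Fin n → ℂ) (x : Fin n → ℝ) : Hw (y + LH x) = Hw y + x := by
  funext j
  unfold Hw
  show (y j + (x j : ℂ) * I).im = (y j).im + x j
  simp

/-- TieW: in the coordinates `w`, almost surely there are no ties -/
theorem tieW : ∀ᵐ w : Fin n → ℂ, Np w ∧ ∀ᵐ ω ∂PP, NoTie (uw w) (Hw w) ω := by
  have hm : MeasurableSet {w : Fin n → ℂ | ∀ᵐ ω ∂PP, NoTie (uw w) (Hw w) ω} :=
    measurableSet_tie measurable_uw measurable_Hw
  have hNp : MeasurableSet {w : Fin n → ℂ | Np w} := by
    have e : {w : Fin n → ℂ | Np w} = ⋂ (i : Fin n) (j : Fin n) (_ : i ≠ j),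
        {w : Fin n → ℂ | dt (uw w i) (uw w j) ≠ 0} := by
      ext w
      simp [Np]
    rw [e]
    exact MeasurableSet.iInter fun i => MeasurableSet.iInter fun j => MeasurableSet.iInter
      fun _ => measurableSet_dt i j
  have h1 : ∀ᵐ w : Fin n → ℂ, w ∈ {w : Fin n → ℂ | Np w}ᶜ ∪
      {w : Fin n → ℂ | ∀ᵐ ω ∂PP, NoTie (uw w) (Hw w) ω} := by
    refine ae_mem_of_ae_add_linearMap_mem LH volume volume (hNp.compl.union hm) fun y => ?_
    by_cases hy : Np y
    · have h2 := tie (uw y) hy
      have h3 : ∀ᵐ x : Fin n → ℝ, ∀ᵐ ω ∂PP, NoTie (uw y) (Hw y + x) ω :=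
        (quasiMeasurePreserving_add_left (volume : Measure (Fin n → ℝ)) (Hw y)).ae h2
      filter_upwards [h3] with x hx
      right
      show ∀ᵐ ω ∂PP, NoTie (uw (y + LH x)) (Hw (y + LH x)) ω
      rw [uw_LH, Hw_LH]
      exact hx
    · filter_upwards with x
      left
      intro h
      apply hy
      have h4 : Np (y + LH x) := h
      unfold Np at h4
      rw [uw_LH] at h4
      exact h4
  filter_upwards [h1, ae_Np] with w hw hn
  exact ⟨hn, hw.resolve_left fun h => h hn⟩

end Pool.Agent.AEU.H8
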